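import Pool.Agent.Helper30.T5b.Front
import Pool.Agent.Helper37.T5b.Ev

/-!
# T5b (MP_12a1af): the levels of a state in terms of the position, borders near a common front
-/

set_option autoImplicit false

namespace Pool.Agent.Helper30.T5b

open Finset Pool.Agent.Helper5.ET Pool.Agent.Helper27.T4 Pool.Agent.Helper37.T5b
open Pool.Agent.Helper27.T5b Pool.Agent.Helper37.T5 Pool.Agent.Helper30.T5
open Pool.Agent.Helper27.T5 (sp gw)

/-! ## the level against the position -/

/-- the size of the next level is at most the border -/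
theorem SS_sv_succ_le {m k : ℕ} (hm : 0 < m) {y : ℕ} (h : kt m k ≤ era y) :
    SS m (sv m k y + 1) ≤ bb (era y) := by
  have h1 := lv_le_sv m k y
  have h2 := sv_le_lv_succ m k y
  rcases Nat.eq_or_lt_of_le h1 with h3 | h3
  · rw [← h3]
    rcases Nat.eq_or_lt_of_le (k_le_lv hm k (era y)) with h4 | h4
    · rw [← h4]
      exact (kt_spec m k).trans (bb_strictMono.monotone h)
    · have h5 := bb_ge_of_lv hm (k := k) (j := era y) (t := lv m k (era y) - 1) (by omega)
        (by omega)
      have e : lv m k (era y) - 1 + 2 = lv m k (era y) + 1 := by omega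
      rwa [e] at h5
  · -- special era after SPLIT
    have h4 : spec m k (era y) := by
      by_contra hc
      have : sv m k y = lv m k (era y) := by
        unfold sv
        rw [if_neg (fun h => hc h.1), add_zero]
      omega
    have h5 := kt_spec m (lv m k (era y) + 1)
    unfold spec at h4
    rw [h4] at h5
    have e : sv m k y + 1 = lv m k (era y) + 1 + 1 := by omega
    rw [e]
    exact h5

theorem SS_sv_succ_le' {m k : ℕ} (hm : 0 < m) {y : ℕ} (hy : bb 0 ≤ y) (h : kt m k ≤ era y) :
    SS m (sv m k y + 1) ≤ y := (SS_sv_succ_le hm h).trans (era_spec y hy).1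

/-- the border is at most twice the size of the second next level -/
theorem bb_lt_SS {m : ℕ} (hm : 0 < m) (k y : ℕ) : bb (era y) < 2 * SS m (sv m k y + 2) :=
  (bb_lt_of_lv hm k (era y)).trans_le
    (Nat.mul_le_mul_left _ (SS_mono m (by have := lv_le_sv m k y; omega)))

theorem lt_SS {m : ℕ} (hm : 0 < m) (k : ℕ) {y : ℕ} (hy : bb 0 ≤ y) :
    y < 4 * SS m (sv m k y + 2) := by
  have h1 := (era_spec y hy).2
  have h2 := bb_succ_le (era y)
  have h3 := bb_lt_SS hm k y
  omega

/-- in exponents -/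
theorem aa_sv_succ_le {m k : ℕ} (hm : 0 < m) {y : ℕ} (hy : bb 0 ≤ y) (h : kt m k ≤ era y) :
    aa m (sv m k y + 1) ≤ Nat.log 2 y :=
  Nat.le_log_of_pow_le (by norm_num) (SS_sv_succ_le' hm hy h)

/-- `y ≤ 2 ^ (i + 4) * SS (s - i) * 2 ^ ((i + 2) * (log2 y / m))` -/
theorem lt_mul_SS {m k : ℕ} (hm : 0 < m) {y i : ℕ} (hy : bb 0 ≤ y) (h : kt m k ≤ era y)
    (hi : i ≤ sv m k y) :
    y < 2 ^ (i + 4) * (2 ^ ((i + 2) * (Nat.log 2 y / m)) * SS m (sv m k y - i)) := by
  have h1 := lt_SS hm k hy
  have h2 := aa_sv_succ_le hm hy h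
  set s := sv m k y with hs
  -- `aa (s + 2) ≤ aa (s - i) + (i + 2) * (log / m + 1)`
  have key : ∀ d, d ≤ i + 2 → aa m (s + 2) ≤ aa m (s + 2 - d) + d * (Nat.log 2 y / m + 1) := by
    intro d hd
    induction d with
    | zero => simp
    | succ d ih =>
      have h3 := ih (by omega)
      have e : s + 2 - d = (s + 2 - (d + 1)) + 1 := by omega
      rw [e, aa_succ m (s + 2 - (d + 1))] at h3
      have h4 : aa m (s + 2 - (d + 1)) / m ≤ Nat.log 2 y / m := by
        apply Nat.div_le_div_right
        exact ((aa_strictMono m).monotone (by omega)).trans h2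
      have h5 : (d + 1) * (Nat.log 2 y / m + 1) = d * (Nat.log 2 y / m + 1) +
        (Nat.log 2 y / m + 1) := by ring
      rw [h5]
      generalize Nat.log 2 y / m = q at *
      generalize aa m (s + 2 - (d + 1)) / m = q' at *
      omega
  have h3 := key (i + 2) le_rfl
  have e : s + 2 - (i + 2) = s - i := by omega
  rw [e] at h3
  refine h1.trans_le ?_
  unfold SS
  calc 4 * 2 ^ aa m (s + 2) = 2 ^ (aa m (s + 2) + 2) := by ring
    _ ≤ 2 ^ ((i + 4) + ((i + 2) * (Nat.log 2 y / m) + aa m (s - i))) := by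
        apply Nat.pow_le_pow_right (by norm_num)
        have h5 : (i + 2) * (Nat.log 2 y / m + 1) = (i + 2) * (Nat.log 2 y / m) + (i + 2) := by ring
        rw [h5] at h3
        generalize (i + 2) * (Nat.log 2 y / m) = q at *
        omega
    _ = _ := by rw [pow_add 2 (i + 4), pow_add 2 ((i + 2) * (Nat.log 2 y / m))]

/-- `2 ^ (i * (log2 y / m)) ≤ y ^ (i / m)` -/
theorem two_pow_log_le {m : ℕ} (hm : 0 < m) {y : ℕ} (hy : 0 < y) (i : ℕ) :
    ((2 : ℝ) ^ (i * (Nat.log 2 y / m))) ≤ (y : ℝ) ^ ((i : ℝ) / m) := by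
  have hmr : (0 : ℝ) < m := by exact_mod_cast hm
  have h1 : (2 : ℝ) ^ Nat.log 2 y ≤ y := by exact_mod_cast Nat.pow_log_le_self 2 hy.ne'
  have h2 : ((i * (Nat.log 2 y / m) : ℕ) : ℝ) ≤ (Nat.log 2 y : ℝ) * ((i : ℝ) / m) := by
    have h3 : ((Nat.log 2 y / m : ℕ) : ℝ) ≤ (Nat.log 2 y : ℝ) / m := Nat.cast_div_le
    push_cast
    calc (i : ℝ) * ((Nat.log 2 y / m : ℕ) : ℝ) ≤ i * ((Nat.log 2 y : ℝ) / m) :=
          mul_le_mul_of_nonneg_left h3 (Nat.cast_nonneg _)
      _ = _ := by ring
  calc ((2 : ℝ) ^ (i * (Nat.log 2 y / m))) = (2 : ℝ) ^ (((i * (Nat.log 2 y / m) : ℕ)) : ℝ) :=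
        (Real.rpow_natCast _ _).symm
    _ ≤ (2 : ℝ) ^ ((Nat.log 2 y : ℝ) * ((i : ℝ) / m)) :=
        Real.rpow_le_rpow_of_exponent_le (by norm_num) h2
    _ = ((2 : ℝ) ^ (Nat.log 2 y : ℝ)) ^ ((i : ℝ) / m) := Real.rpow_mul (by norm_num) _ _
    _ ≤ _ := by
        apply Real.rpow_le_rpow (by positivity) _ (by positivity)
        rw [Real.rpow_natCast]
        exact h1

/-- **the position against the size of a level**: `y ≤ 2 ^ (i+4) * y ^ ((i+2)/m) * SS (s - i)` -/
theorem le_rpow_mul_SS {m k : ℕ} (hm : 0 < m) {y i : ℕ} (hy : bb 0 ≤ y) (h : kt m k ≤ era y)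
    (hi : i ≤ sv m k y) :
    (y : ℝ) ≤ 2 ^ (i + 4) * (y : ℝ) ^ (((i : ℝ) + 2) / m) * (SS m (sv m k y - i) : ℝ) := by
  have h1 := (lt_mul_SS hm hy h hi).le
  have hy0 : 0 < y := lt_of_lt_of_le (by have := bb_ge_pow 0; omega) hy
  have h2 := two_pow_log_le hm hy0 (i + 2)
  have h3 : (y : ℝ) ≤ 2 ^ (i + 4) * (2 ^ ((i + 2) * (Nat.log 2 y / m)) *
      (SS m (sv m k y - i) : ℝ)) := by exact_mod_cast h1
  push_cast at h2
  calc (y : ℝ) ≤ 2 ^ (i + 4) * (2 ^ ((i + 2) * (Nat.log 2 y / m)) *
      (SS m (sv m k y - i) : ℝ)) := h3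
    _ ≤ 2 ^ (i + 4) * ((y : ℝ) ^ (((i : ℝ) + 2) / m) * (SS m (sv m k y - i) : ℝ)) := by
        gcongr
    _ = _ := by ring

/-- the innermost size is small: `SS (s - i) ^ ((1 + 1/m) ^ (i + 1)) ≤ y` -/
theorem SS_rpow_le {m k : ℕ} (hm : 2 ≤ m) {y i : ℕ} (hy : bb 0 ≤ y) (h : kt m k ≤ era y)
    (hi : i ≤ sv m k y) :
    (SS m (sv m k y - i) : ℝ) ^ ((1 + 1 / (m : ℝ)) ^ (i + 1)) ≤ (y : ℝ) := by
  have h1 := (isSz hm).rpow_le_add (sv m k y - i) (i + 1)
  have e : sv m k y - i + (i + 1) = sv m k y + 1 := by omega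
  rw [e] at h1
  have h2 : ((SS m (sv m k y + 1) : ℕ) : ℝ) ≤ y := by
    exact_mod_cast SS_sv_succ_le' (by omega) hy h
  unfold SS at h2 ⊢
  push_cast at h2 ⊢
  exact h1.trans h2

/-- `SS (s - i) ≤ y ^ (1 / (1 + 1/m) ^ (i+1))` -/
theorem SS_le_rpow {m k : ℕ} (hm : 2 ≤ m) {y i : ℕ} (hy : bb 0 ≤ y) (h : kt m k ≤ era y)
    (hi : i ≤ sv m k y) :
    (SS m (sv m k y - i) : ℝ) ≤ (y : ℝ) ^ (((1 + 1 / (m : ℝ)) ^ (i + 1))⁻¹) := by
  have h1 := SS_rpow_le hm hy h hi
  have hpos : 0 < (1 + 1 / (m : ℝ)) ^ (i + 1) := by positivity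
  have h2 := Real.rpow_le_rpow (by positivity) h1 (inv_nonneg.2 hpos.le)
  rwa [← Real.rpow_mul (by positivity), mul_inv_cancel₀ hpos.ne', Real.rpow_one] at h2

/-- neighbouring sizes: `SS t ≤ 2 ^ d * y ^ (d / m) * SS (t - d)` for `t ≤ s + 2` -/
theorem SS_le_mul_SS {m k : ℕ} (hm : 0 < m) {y t d : ℕ} (hy : bb 0 ≤ y) (h : kt m k ≤ era y)
    (ht : t ≤ sv m k y + 2) (hd : d ≤ t) :
    (SS m t : ℝ) ≤ 2 ^ d * (y : ℝ) ^ ((d : ℝ) / m) * (SS m (t - d) : ℝ) := by
  have h2 := aa_sv_succ_le hm hy h
  have key : ∀ c, c ≤ d → aa m t ≤ aa m (t - c) + c * (Nat.log 2 y / m + 1) := by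
    intro c hc
    induction c with
    | zero => simp
    | succ c ih =>
      have h3 := ih (by omega)
      have e : t - c = (t - (c + 1)) + 1 := by omega
      rw [e, aa_succ m (t - (c + 1))] at h3
      have h4 : aa m (t - (c + 1)) / m ≤ Nat.log 2 y / m := by
        apply Nat.div_le_div_right
        exact ((aa_strictMono m).monotone (by omega)).trans h2
      have h5 : (c + 1) * (Nat.log 2 y / m + 1) = c * (Nat.log 2 y / m + 1) +
        (Nat.log 2 y / m + 1) := by ring
      rw [h5]
      generalize Nat.log 2 y / m = q at *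
      generalize aa m (t - (c + 1)) / m = q' at *
      omega
  have h3 := key d le_rfl
  have hy0 : 0 < y := lt_of_lt_of_le (by have := bb_ge_pow 0; omega) hy
  have h4 := two_pow_log_le hm hy0 d
  have h5 : SS m t ≤ 2 ^ d * 2 ^ (d * (Nat.log 2 y / m)) * SS m (t - d) := by
    unfold SS
    rw [← pow_add, ← pow_add]
    apply Nat.pow_le_pow_right (by norm_num)
    have h6 : d * (Nat.log 2 y / m + 1) = d * (Nat.log 2 y / m) + d := by ring
    rw [h6] at h3
    generalize d * (Nat.log 2 y / m) = q at *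
    omega
  have h6 : (SS m t : ℝ) ≤ 2 ^ d * 2 ^ (d * (Nat.log 2 y / m)) * (SS m (t - d) : ℝ) := by
    exact_mod_cast h5
  refine h6.trans ?_
  gcongr

/-! ## borders -/

/-- an interval of the chain which contains main digits of two different eras contains a whole
buffer block -/
theorem border_block {m k : ℕ} (hm : 0 < m) {l' u y z : ℕ} (hy0 : bb 0 ≤ y) (he : era y < era z)
    (hyz : y ≤ z) (hy : l' ≤ pos (ins m k) y) (hz : pos (ins m k) z < u) :
    l' ≤ beg (ins m k) (bb (era z)) ∧ pos (ins m k) (bb (era z)) < u ∧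
      RB m (lv m k (era z)) ≤ u - l' := by
  have h1 := (era_spec y hy0).2
  have h2 : bb (era y + 1) ≤ bb (era z) := bb_strictMono.monotone he
  have h3 := (era_spec z (hy0.trans hyz)).1
  have h4 : pos (ins m k) (bb (era z)) < u :=
    lt_of_le_of_lt ((pos_strictMono (ins m k)).monotone h3) hz
  have h5 := block_in (ins := ins m k) (show y < bb (era z) by omega) hy h4
  rw [ins_bb hm] at h5
  exact h5

/-- the window of a common front of a static level contains no border -/
theorem no_border_of_common {m k : ℕ} (hm : 0 < m) {l' l t y z : ℕ}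
    (hlate : kt m k ≤ era (l1 (ins m k) l)) (hl0 : bb 0 ≤ l1 (ins m k) l')
    (hl : l' ≤ l) (ht : t < sv m k (l1 (ins m k) l)) (he : ez m t l' = ez m t l)
    (hy0 : bb 0 ≤ y) (hyz : y ≤ z) (hy : l' ≤ pos (ins m k) y)
    (hz : pos (ins m k) z < ez m t l) : era y = era z := by
  by_contra hc
  have hlt : era y < era z := lt_of_le_of_ne (era_mono hyz) hc
  obtain ⟨b1, b2, b3⟩ := border_block hm hy0 hlt hyz hy hz
  have hw := common_window hm he
  have hdist := dist_of_common hm hl he
  set y0 := l1 (ins m k) l with hy0def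
  have hs1 := SS_sv_succ_le hm hlate
  have hyy : bb 0 ≤ y0 := hl0.trans (l1_mono (ins m k) hl)
  have hsp := era_spec y0 hyy
  -- it suffices that `t < lv (era z)`
  have key : t < lv m k (era z) := by
    rcases Nat.lt_or_ge y0 (bb (era z)) with hA | hA
    · -- the border comes after the state
      have h1 : era y0 < era z := by
        by_contra hc2
        have := bb_strictMono.monotone (not_lt.1 hc2)
        omega
      exact ht.trans_le ((sv_le_lv_next hm y0).trans (lv_mono hm k h1))
    · -- the border lies between `l'` and `l`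
      have h1 : era z ≤ era y0 := by
        by_contra hc2
        have := bb_strictMono.monotone (show era y0 + 1 ≤ era z by omega)
        omega
      have hbeg : beg (ins m k) y0 ≤ l := beg_l1_le (ins m k) l
      -- distance of the main digits
      have h2 : y0 ≤ bb (era z) + (l - l') := by
        have h3 : beg (ins m k) (bb (era z)) + (y0 - bb (era z)) ≤ beg (ins m k) y0 := by
          have : ∀ d, beg (ins m k) (bb (era z)) + d ≤ beg (ins m k) (bb (era z) + d) := by
            intro d
            induction d with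
            | zero => simp
            | succ d ih =>
              have h4 := beg_succ (ins m k) (bb (era z) + d)
              have h5 := beg_le_pos (ins m k) (bb (era z) + d)
              have e : bb (era z) + (d + 1) = bb (era z) + d + 1 := by ring
              rw [e, h4]
              omega
          have h4 := this (y0 - bb (era z))
          rwa [Nat.add_sub_cancel' hA] at h4
        omega
      rcases Nat.eq_or_lt_of_le h1 with h3 | h3
      · -- same era: no SPLIT yet
        by_contra hc2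
        have h4 := sv_le_lv_succ m k y0
        rw [h3] at hc2
        have h5 : sv m k y0 = lv m k (era y0) + 1 := by omega
        have h6 : spec m k (era y0) ∧ nS m k (lv m k (era y0) + 1) ≤ y0 := by
          by_contra hc3
          unfold sv at h5
          rw [if_neg hc3] at h5
          omega
        have h7 := Zt_le_ut hm (lv m k (era y0) + 1)
        have h8 := ut_le_nE m k (lv m k (era y0) + 1)
        have h9 := nE_le_nD m k (lv m k (era y0) + 1)
        have h10 := h6.1
        unfold spec at h10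
        rw [h10] at h7
        have h11 : PZ m t ≤ Zt m (lv m k (era y0) + 1) := by
          have a1 := PZ_mul hm t
          have a2 := SS_mono m (show t ≤ lv m k (era y0) + 1 by omega)
          unfold Zt
          omega
        rw [h3] at h2
        have h12 : Zt m (lv m k (era y0) + 1) ≤ nE m k (lv m k (era y0) + 1) - bb (era y0) := by
          omega
        omega
      · -- a whole era lies between: impossible
        exfalso
        have h4 : bb (era z + 1) ≤ bb (era y0) := bb_strictMono.monotone h3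
        have h5 := len_bounds (era z)
        have h6 := bb_add_len (era z)
        have h7 : 1024 * PZ m t ≤ bb (era y0) := by
          have a1 := PZ_mul hm t
          have a2 := SS_mono m (show t ≤ sv m k y0 by omega)
          have a3 := SS_succ_ge hm (sv m k y0)
          have a4 : 2 ^ 250 * SS m (sv m k y0) = 2 ^ 249 * (2 * SS m (sv m k y0)) := by ring
          have a5 : 2 * SS m (sv m k y0) ≤ 2 ^ 249 * (2 * SS m (sv m k y0)) :=
            Nat.le_mul_of_pos_left _ (by positivity)
          omega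
        have h8 := bb_ge_pow (era z)
        have h9 := bb_succ_le (era z)
        omega
  -- the buffer block is too long
  have hRB : RB m (lv m k (era z)) = 9 * PZ m (lv m k (era z) - 1) := rfl
  have h1 := PZ_mono m (show t ≤ lv m k (era z) - 1 by omega)
  have h2 := PZ_pos hm t
  rw [hRB] at b3
  omega

end Pool.Agent.Helper30.T5b
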