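import Mathlib

/-!
# T5b (MP_12a1af): the sequence of the sizes

`a 0 = 400 m ^ 2`, `a (t+1) = a t + a t / m + 1`, `S t = 2 ^ a t`.  Everything here is proved for
an arbitrary sequence with this recursion.
-/

set_option autoImplicit false

namespace Pool.Agent.Helper30.T5b

/-- sequences with the recursion -/
structure IsSz (m : ℕ) (a : ℕ → ℕ) : Prop where
  hm : 2 ≤ m
  zero : a 0 = 400 * m ^ 2
  succ : ∀ t, a (t + 1) = a t + a t / m + 1

variable {m : ℕ} {a : ℕ → ℕ}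

namespace IsSz

theorem lt_succ (h : IsSz m a) (t : ℕ) : a t < a (t + 1) := by
  rw [h.succ]
  exact Nat.lt_succ_of_le (Nat.le_add_right _ _)

theorem strictMono (h : IsSz m a) : StrictMono a := strictMono_nat_of_lt_succ h.lt_succ

theorem mono (h : IsSz m a) : Monotone a := h.strictMono.monotone

theorem ge (h : IsSz m a) (t : ℕ) : 400 * m ^ 2 ≤ a t := by
  rw [← h.zero]
  exact h.mono (Nat.zero_le t)

theorem ge_real (h : IsSz m a) (t : ℕ) : (400 : ℝ) * m ^ 2 ≤ a t := by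
  exact_mod_cast h.ge t

theorem div_ge (h : IsSz m a) (t : ℕ) : 400 * m ≤ a t / m := by
  rw [Nat.le_div_iff_mul_le (by have := h.hm; omega)]
  have := h.ge t
  nlinarith

theorem ge_t (h : IsSz m a) (t : ℕ) : t ≤ a t := h.strictMono.le_apply

/-- the quotients grow: `a (t+1) / m ≥ a t / m + 400` -/
theorem div_succ (h : IsSz m a) (t : ℕ) : a t / m + 400 ≤ a (t + 1) / m := by
  have hm := h.hm
  have h1 := h.div_ge t
  rw [Nat.le_div_iff_mul_le (by omega), h.succ]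
  have h2 := Nat.div_mul_le_self (a t) m
  have h3 : 400 * m ≤ a t / m := h1
  nlinarith

theorem div_mono (h : IsSz m a) {t t' : ℕ} (ht : t ≤ t') : a t / m ≤ a t' / m :=
  Nat.div_le_div_right (h.mono ht)

/-! ## the sizes `2 ^ a t` -/

theorem pow_succ_eq (h : IsSz m a) (t : ℕ) : 2 ^ a (t + 1) = 2 ^ (a t / m + 1) * 2 ^ a t := by
  rw [h.succ, ← pow_add]
  congr 1
  ring

theorem ratio (h : IsSz m a) (t : ℕ) : 2 ^ a (t + 1) / 2 ^ a t = 2 ^ (a t / m + 1) := by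
  rw [h.pow_succ_eq]
  exact Nat.mul_div_cancel _ (by positivity)

theorem pow_ge (h : IsSz m a) (t : ℕ) : 2 ^ 1600 ≤ 2 ^ a t := by
  apply Nat.pow_le_pow_right (by norm_num)
  have h1 := h.ge t
  have h2 := h.hm
  nlinarith

theorem pow_mono (h : IsSz m a) {t t' : ℕ} (ht : t ≤ t') : 2 ^ a t ≤ 2 ^ a t' :=
  Nat.pow_le_pow_right (by norm_num) (h.mono ht)

theorem pow_dvd (h : IsSz m a) {t t' : ℕ} (ht : t ≤ t') : 2 ^ a t ∣ 2 ^ a t' :=
  Nat.pow_dvd_pow _ (h.mono ht)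

theorem mul_pow_le (h : IsSz m a) {t t' : ℕ} (ht : t < t') : 2 ^ 800 * 2 ^ a t ≤ 2 ^ a t' := by
  rw [← pow_add]
  apply Nat.pow_le_pow_right (by norm_num)
  have h1 := h.mono (show t + 1 ≤ t' by omega)
  have h2 := h.div_ge t
  have h3 := h.hm
  rw [h.succ] at h1
  omega

/-! ## growth -/

/-- `S ^ (1 + 1/m) ≤ S'` -/
theorem rpow_le_succ (h : IsSz m a) (t : ℕ) :
    ((2 : ℝ) ^ a t) ^ (1 + 1 / (m : ℝ)) ≤ 2 ^ a (t + 1) := by
  have hm : (0 : ℝ) < m := by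
    have := h.hm
    exact_mod_cast (by omega : 0 < m)
  rw [← Real.rpow_natCast, ← Real.rpow_natCast, ← Real.rpow_mul (by norm_num)]
  apply Real.rpow_le_rpow_of_exponent_le (by norm_num)
  have h1 : a t < (a t / m + 1) * m := by
    have := Nat.lt_div_mul_add (a := a t) (b := m) (by have := h.hm; omega)
    nlinarith
  have h2 : (a t : ℝ) ≤ ((a t / m : ℕ) + 1) * m := by exact_mod_cast h1.le
  have h3 : (a t : ℝ) * (1 / m) ≤ (a t / m : ℕ) + 1 := by
    rw [mul_one_div, div_le_iff₀ hm]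
    exact h2
  rw [h.succ]
  push_cast
  nlinarith

/-- `S ^ ((1 + 1/m) ^ d) ≤ S_(t+d)` -/
theorem rpow_le_add (h : IsSz m a) (t d : ℕ) :
    ((2 : ℝ) ^ a t) ^ ((1 + 1 / (m : ℝ)) ^ d) ≤ 2 ^ a (t + d) := by
  induction d with
  | zero => simp
  | succ d ih =>
    have h1 := h.rpow_le_succ (t + d)
    rw [pow_succ, Real.rpow_mul (by positivity)]
    exact (Real.rpow_le_rpow (by positivity) ih (by positivity)).trans h1

/-- the exponents: `a (t+1) ≤ a t (1 + 1/m + 1/(400 m^2))` -/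
theorem succ_le_real (h : IsSz m a) (t : ℕ) :
    (a (t + 1) : ℝ) ≤ a t * (1 + 1 / m + 1 / (400 * m ^ 2)) := by
  have hm : (0 : ℝ) < m := by
    have := h.hm
    exact_mod_cast (by omega : 0 < m)
  have h1 := h.ge_real t
  have h2 : ((a t / m : ℕ) : ℝ) ≤ a t / m := Nat.cast_div_le
  rw [h.succ]
  push_cast
  have h3 : (1 : ℝ) ≤ a t * (1 / (400 * m ^ 2)) := by
    rw [mul_one_div, le_div_iff₀ (by positivity)]
    linarith
  have h4 : (a t : ℝ) * (1 + 1 / m + 1 / (400 * m ^ 2)) =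
    a t + a t / m + a t * (1 / (400 * m ^ 2)) := by ring
  rw [h4]
  linarith

theorem add_le_real (h : IsSz m a) (t d : ℕ) :
    (a (t + d) : ℝ) ≤ a t * (1 + 1 / m + 1 / (400 * m ^ 2)) ^ d := by
  induction d with
  | zero => simp
  | succ d ih =>
    have h1 := h.succ_le_real (t + d)
    rw [pow_succ, ← mul_assoc]
    refine h1.trans ?_
    exact mul_le_mul_of_nonneg_right ih (by positivity)

/-- two steps: `a (t+2) + 8 ≤ a t (1 + 3/m)` -/
theorem add_two_le (h : IsSz m a) (t : ℕ) : (a (t + 2) : ℝ) + 8 ≤ a t * (1 + 3 / m) := by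
  have hm2 : (2 : ℝ) ≤ m := by exact_mod_cast h.hm
  have hm : (0 : ℝ) < m := by linarith
  have h1 := h.add_le_real t 2
  have h2 := h.ge_real t
  have ha : (0 : ℝ) ≤ a t := Nat.cast_nonneg _
  set x : ℝ := 1 / m with hx
  have hx0 : 0 < x := by positivity
  have hx1 : x ≤ 1 / 2 := by
    rw [hx]
    exact one_div_le_one_div_of_le (by norm_num) hm2
  have e1 : (1 : ℝ) / (400 * m ^ 2) = x ^ 2 / 400 := by
    rw [hx]
    field_simp
  have e2 : (3 : ℝ) / m = 3 * x := by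
    rw [hx]
    ring
  have e3 : (8 : ℝ) ≤ a t * (x ^ 2 / 50) := by
    have : (400 : ℝ) * m ^ 2 * (x ^ 2 / 50) = 8 := by
      rw [hx]
      field_simp
      norm_num
    calc (8 : ℝ) = 400 * m ^ 2 * (x ^ 2 / 50) := this.symm
      _ ≤ _ := mul_le_mul_of_nonneg_right h2 (by positivity)
  rw [e1] at h1
  rw [e2]
  have e4 : (1 + x + x ^ 2 / 400) ^ 2 + x ^ 2 / 50 ≤ 1 + 3 * x := by
    have hxx : x ^ 2 ≤ x / 2 := by nlinarith
    have hx3 : x ^ 3 ≤ x / 4 := by nlinarith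
    have hx4 : x ^ 4 ≤ x / 8 := by nlinarith
    nlinarith
  have e5 := mul_le_mul_of_nonneg_left e4 ha
  calc (a (t + 2) : ℝ) + 8 ≤ a t * (1 + x + x ^ 2 / 400) ^ 2 + a t * (x ^ 2 / 50) := by linarith
    _ = a t * ((1 + x + x ^ 2 / 400) ^ 2 + x ^ 2 / 50) := by ring
    _ ≤ _ := e5

/-- `2 ^ 8 * S_(t+2) ≤ S_t ^ (1 + 3/m)` -/
theorem pow_add_two_le (h : IsSz m a) (t : ℕ) :
    (2 : ℝ) ^ 8 * 2 ^ a (t + 2) ≤ ((2 : ℝ) ^ a t) ^ (1 + 3 / (m : ℝ)) := by
  have h1 := h.add_two_le t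
  have e1 : (2 : ℝ) ^ 8 * 2 ^ a (t + 2) = (2 : ℝ) ^ ((a (t + 2) : ℝ) + 8) := by
    rw [Real.rpow_add (by norm_num), Real.rpow_natCast]
    norm_num
    ring
  rw [e1, ← Real.rpow_natCast, ← Real.rpow_mul (by norm_num)]
  exact Real.rpow_le_rpow_of_exponent_le (by norm_num) h1

end IsSz

end Pool.Agent.Helper30.T5b
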