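import Pool.Agent.Helper37.T5b.Chain
import Pool.Agent.Helper37.T5.Sched
import Pool.Agent.Helper27.T5b.Own2

/-!
# T5b (MP_12a1af): moduli of the triples, fronts, the modulus of a state (definitions)
-/

set_option autoImplicit false

namespace Pool.Agent.Helper30.T5b

open Finset Pool.Agent.Helper5.ET Pool.Agent.Helper27.T4 Pool.Agent.Helper37.T5b
open Pool.Agent.Helper27.T5b Pool.Agent.Helper37.T5
open Pool.Agent.Helper27.T5 (sp gw)

/-- prime of the family `f` of the triple `t` -/
noncomputable def pz (k t : ℕ) (f : Fin 3) : ℕ := sp (3 * (t % (k + 3)) + f)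

/-- modulus of the family `f` of the triple `t` -/
noncomputable def QF (m k t : ℕ) (f : Fin 3) : ℕ := pz k t f ^ zf m k t f

/-- modulus `Q_t` of the triple `t` -/
noncomputable def QT (m k t : ℕ) : ℕ := ∏ f : Fin 3, QF m k t f

/-- `R_t = (10 ^ 6) ^ S_0 * Q_1 * ... * Q_t` -/
noncomputable def RT (m k t : ℕ) : ℕ := (10 ^ 6) ^ SS m 0 * ∏ i ∈ Icc 1 t, QT m k i

/-- number of digits (of size `10 ^ 6`) of the family `f` of the triple `t` -/
def dz (m t : ℕ) (f : Fin 3) : ℕ := gw f * Sg m t / 8

/-- step of the front belonging to the size `SS m t` -/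
def PZ (m t : ℕ) : ℕ := SS m t / 2 ^ 9

/-- position (index of the whole chain) of the front belonging to the size `SS m t` -/
def ez (m t l : ℕ) : ℕ := fr (PZ m t) 6 l

/-- product of all digits below the index `l`, times `R_k` -/
noncomputable def NL (m k l : ℕ) : ℕ :=
  RT m k k * NP (ins m k) own (ex m k) pr (pe k) l

end Pool.Agent.Helper30.T5b
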